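import Pool.Agent.MNO.ALL

/-!
# Vaught's conjecture for monadically NIP theories with a definable linear order

The linear order may be defined with parameters; `T` need not be complete.
-/

set_option autoImplicit false

namespace Pool.Agent.Results.MP_5df2c5_lc.MonadicallyNIP

open FirstOrder Set

/-- The dichotomy for a theory: its models on `ℕ` fall into countably many isomorphism classes, or a
continuous map from Cantor space to these models has pairwise nonisomorphic values. -/
def Dich (L : FirstOrder.Language.{0, 0}) (T : L.Theory) : Prop :=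
  (∃ g : ℕ → L.Structure ℕ, ∀ S : L.Structure ℕ,
      @FirstOrder.Language.Theory.Model L ℕ S T →
        ∃ n : ℕ, Nonempty (@FirstOrder.Language.Equiv L ℕ ℕ S (g n))) ∨
  (∃ f : (ℕ → Bool) → L.Structure ℕ,
      (∀ x : ℕ → Bool, @FirstOrder.Language.Theory.Model L ℕ (f x) T) ∧
      (∀ x y : ℕ → Bool,
          Nonempty (@FirstOrder.Language.Equiv L ℕ ℕ (f x) (f y)) → x = y) ∧
      (∀ (n : ℕ) (R : L.Relations n) (a : Fin n → ℕ),
          IsClopen {x : ℕ → Bool | @FirstOrder.Language.Structure.RelMap L ℕ (f x) n R a}) ∧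
      (∀ (n : ℕ) (F : L.Functions n) (a : Fin n → ℕ) (b : ℕ),
          IsOpen {x : ℕ → Bool | @FirstOrder.Language.Structure.funMap L ℕ (f x) n F a = b}))

/-- `F` shatters a set with `k` elements. -/
def Shatters {α β : Type} (F : α → β → Prop) (k : ℕ) : Prop :=
  ∃ (x : Fin k → α) (y : Set (Fin k) → β), ∀ i s, F (x i) (y s) ↔ i ∈ s

/-- In all models on `ℕ` some strict linear order of `ℕ` is definable with parameters. -/
def Ordered (L : FirstOrder.Language.{0, 0}) (T : L.Theory) : Prop :=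
  ∀ S : L.Structure ℕ, @FirstOrder.Language.Theory.Model L ℕ S T →
    ∃ r : ℕ → ℕ → Prop, (univ : Set ℕ).Definable L {v : Fin 2 → ℕ | r (v 0) (v 1)} ∧
      (∀ x, ¬ r x x) ∧ (∀ x y z, r x y → r y z → r x z) ∧ ∀ x y, x ≠ y → r x y ∨ r y x

/-- In all models on `ℕ`, for every set `P`, no relation `∃ z ∈ P, φ(x, y, z)` between tuples shatters
arbitrarily large finite sets. -/
def NIPOne (L : FirstOrder.Language.{0, 0}) (T : L.Theory) : Prop :=
  ∀ S : L.Structure ℕ, @FirstOrder.Language.Theory.Model L ℕ S T →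
    ∀ (P : Set ℕ) (m n : ℕ) (φ : L.Formula ((Fin m ⊕ Fin n) ⊕ Unit)), ∃ k : ℕ,
      ¬ Shatters (fun (x : Fin m → ℕ) (y : Fin n → ℕ) =>
        ∃ z ∈ P, φ.Realize (Sum.elim (Sum.elim x y) fun _ => z)) k

/-- Unary predicates `P 0, P 1, ..`. -/
inductive UnRel : ℕ → Type
  | mk : ℕ → UnRel 1

/-- The language of the unary predicates. -/
def LU : FirstOrder.Language.{0, 0} := ⟨fun _ => Empty, UnRel⟩

/-- The structure on `ℕ` given by sets `W 0, W 1, ..`. -/
@[reducible] def luStr (W : ℕ → Set ℕ) : LU.Structure ℕ where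
  funMap := fun f => nomatch f
  RelMap := fun {n} (r : UnRel n) => match n, r with
    | _, UnRel.mk i => fun a => a 0 ∈ W i

/-- `T` is monadically NIP: in every expansion of a model on `ℕ` by unary predicates no formula shatters
arbitrarily large finite sets. -/
def IsMonadicallyNIP (L : FirstOrder.Language.{0, 0}) (T : L.Theory) : Prop :=
  ∀ S : L.Structure ℕ, @FirstOrder.Language.Theory.Model L ℕ S T →
    ∀ (W : ℕ → Set ℕ) (m n : ℕ) (φ : (L.sum LU).Formula (Fin m ⊕ Fin n)), ∃ k : ℕ,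
      ¬ Shatters (fun (x : Fin m → ℕ) (y : Fin n → ℕ) =>
        @FirstOrder.Language.Formula.Realize (L.sum LU) ℕ
          (@FirstOrder.Language.sumStructure L LU ℕ S (luStr W)) _ φ (Sum.elim x y)) k

theorem nipOne_of {L : FirstOrder.Language.{0, 0}} {T : L.Theory} (h : IsMonadicallyNIP L T) :
    NIPOne L T := by
  intro S hS P m n φ
  let _ : LU.Structure ℕ := luStr fun _ => P
  let q : (L.sum LU).Relations 1 := Sum.inr (UnRel.mk 0 : LU.Relations 1)
  let ψ : (L.sum LU).Formula ((Fin m ⊕ Fin n) ⊕ Unit) :=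
    (FirstOrder.Language.LHom.sumInl : L →ᴸ L.sum LU).onFormula φ ⊓
      q.formula fun _ => FirstOrder.Language.Term.var (Sum.inr ())
  have hψ : ∀ v : (Fin m ⊕ Fin n) ⊕ Unit → ℕ,
      ψ.Realize v ↔ φ.Realize v ∧ v (Sum.inr ()) ∈ P := by
    intro v
    show ((FirstOrder.Language.LHom.sumInl : L →ᴸ L.sum LU).onFormula φ ⊓
      q.formula fun _ => FirstOrder.Language.Term.var (Sum.inr ())).Realize v ↔ _
    rw [FirstOrder.Language.Formula.realize_inf, FirstOrder.Language.LHom.realize_onFormula,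
      FirstOrder.Language.Formula.realize_rel]
    exact Iff.rfl
  obtain ⟨k, hk⟩ := h S hS (fun _ => P) m n (ψ.iExs Unit)
  refine ⟨k, fun hc => hk ?_⟩
  obtain ⟨x, y, hxy⟩ := hc
  refine ⟨x, y, fun i s => ?_⟩
  rw [← hxy i s]
  show (ψ.iExs Unit).Realize (Sum.elim (x i) (y s)) ↔ _
  rw [FirstOrder.Language.Formula.realize_iExs]
  constructor
  · rintro ⟨z, hz⟩
    have h1 := (hψ _).1 hz
    exact ⟨z (), h1.2, h1.1⟩
  · rintro ⟨z, hz, hz'⟩
    exact ⟨fun _ => z, (hψ _).2 ⟨hz', hz⟩⟩

/-- **Vaught's conjecture for monadically NIP theories with a definable linear order.** -/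
theorem result (L : FirstOrder.Language.{0, 0}) (hL : Countable L.Symbols) (T : L.Theory)
    (h1 : Ordered L T) (h2 : IsMonadicallyNIP L T ∨ NIPOne L T) : Dich L T :=
  Pool.Agent.MNO.all_MAINP L hL T fun S hS => ⟨h1 S hS, (h2.elim (fun h => nipOne_of h) id) S hS⟩

end Pool.Agent.Results.MP_5df2c5_lc.MonadicallyNIP
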