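import Pool.Agent.MNO.ALL
import Pool.Agent.UNS.SOR
import Pool.Agent.TPX.ALL

/-!
# Vaught's conjecture for monadically NIP theories whose finite sets are extension bases

`T` is a theory in a countable language, not necessarily complete, and monadically NIP.  In each model of
`T` on `ℕ` a linear order of `ℕ` is definable with parameters, or there is a finite set `A₀` such that in
all elementary extensions on `ℕ` all finite sets which contain `A₀` are extension bases (strong types of
finite tuples over them have invariant extensions).  Then `T` satisfies Vaught's conjecture.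
-/

set_option autoImplicit false

namespace Pool.Agent.Results.MP_5df2c5_lc.MonadicallyNIPBases

open FirstOrder Set

/-- The dichotomy for a theory: its models on `ℕ` fall into countably many isomorphism classes, or a
continuous map from Cantor space to these models has pairwise nonisomorphic values. -/
def Dich (L : FirstOrder.Language.{0, 0}) (T : L.Theory) : Prop :=
  (∃ g : ℕ → L.Structure ℕ, ∀ S : L.Structure ℕ,
      @FirstOrder.Language.Theory.Model L ℕ S T →
        ∃ n : ℕ, Nonempty (@FirstOrder.Language.Equiv L ℕ ℕ S (g n))) ∨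
  (∃ f : (ℕ → Bool) → L.Structure ℕ,
      (∀ x : ℕ → Bool, @FirstOrder.Language.Theory.Model L ℕ (f x) T) ∧
      (∀ x y : ℕ → Bool,
          Nonempty (@FirstOrder.Language.Equiv L ℕ ℕ (f x) (f y)) → x = y) ∧
      (∀ (n : ℕ) (R : L.Relations n) (a : Fin n → ℕ),
          IsClopen {x : ℕ → Bool | @FirstOrder.Language.Structure.RelMap L ℕ (f x) n R a}) ∧
      (∀ (n : ℕ) (F : L.Functions n) (a : Fin n → ℕ) (b : ℕ),
          IsOpen {x : ℕ → Bool | @FirstOrder.Language.Structure.funMap L ℕ (f x) n F a = b}))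

/-- `F` shatters a set with `k` elements. -/
def Shatters {α β : Type} (F : α → β → Prop) (k : ℕ) : Prop :=
  ∃ (x : Fin k → α) (y : Set (Fin k) → β), ∀ i s, F (x i) (y s) ↔ i ∈ s

/-! ### Extension bases -/

section

variable (L : FirstOrder.Language.{0, 0}) {M : Type} [L.Structure M] (B : Set M)

/-- `E` is an equivalence relation between `n`-tuples with finitely many classes, definable over `B`. -/
structure FinEquiv {n : ℕ} (E : (Fin n → M) → (Fin n → M) → Prop) : Prop where
  definable : B.Definable L {v : Fin n ⊕ Fin n → M | E (v ∘ Sum.inl) (v ∘ Sum.inr)}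
  equivalence : Equivalence E
  finite : ∃ s : Set (Fin n → M), s.Finite ∧ ∀ x, ∃ y ∈ s, E x y

/-- `x` and `y` have the same strong type over `B`. -/
def SameStrongType {n : ℕ} (x y : Fin n → M) : Prop := ∀ E, FinEquiv L B E → E x y

/-- `B` is an extension base: the strong type over `B` of every finite tuple `a` has an extension to a
type over `M` which is invariant over `B` (`p` contains `φ(x, c)` if and only if it contains `φ(x, c')`,
for all formulas `φ` over `B` and tuples `c`, `c'` with the same strong type over `B`). -/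
def IsExtensionBase : Prop :=
  ∀ (n : ℕ) (a : Fin n → M), ∃ p : Ultrafilter (Fin n → M),
    (∀ E, FinEquiv L B E → {x | E x a} ∈ p) ∧
    ∀ (m : ℕ) (D : Set (Fin n ⊕ Fin m → M)), B.Definable L D → ∀ c c' : Fin m → M,
      SameStrongType L B c c' → {x | Sum.elim x c ∈ D} ∈ p → {x | Sum.elim x c' ∈ D} ∈ p

end

/-! ### The hypotheses -/

section

variable (L : FirstOrder.Language.{0, 0}) (S : L.Structure ℕ)

/-- Some strict linear order of `ℕ` is definable in `S` with parameters. -/
def IsOrdered : Prop :=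
  ∃ r : ℕ → ℕ → Prop, (@Set.Definable ℕ univ L S (Fin 2) {v : Fin 2 → ℕ | r (v 0) (v 1)}) ∧
    (∀ x, ¬ r x x) ∧ (∀ x y z, r x y → r y z → r x z) ∧ ∀ x y, x ≠ y → r x y ∨ r y x

/-- `i` is an elementary embedding of `S` in `S'`. -/
def IsElementary (S' : L.Structure ℕ) (i : ℕ → ℕ) : Prop :=
  ∀ (n : ℕ) (φ : L.Formula (Fin n)) (x : Fin n → ℕ),
    @FirstOrder.Language.Formula.Realize L ℕ S' _ φ (i ∘ x) ↔
      @FirstOrder.Language.Formula.Realize L ℕ S _ φ x

/-- For a finite set `A₀`, in all elementary extensions of `S` on `ℕ` all finite sets which contain `A₀`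
are extension bases. -/
def HasBases : Prop :=
  ∃ A₀ : Set ℕ, A₀.Finite ∧ ∀ (S' : L.Structure ℕ) (i : ℕ → ℕ), IsElementary L S S' i →
    ∀ B : Set ℕ, B.Finite → i '' A₀ ⊆ B → @IsExtensionBase L ℕ S' B

end

/-- In all models on `ℕ`, for every set `P`, no relation `∃ z ∈ P, φ(x, y, z)` between tuples shatters
arbitrarily large finite sets. -/
def NIPOne (L : FirstOrder.Language.{0, 0}) (T : L.Theory) : Prop :=
  ∀ S : L.Structure ℕ, @FirstOrder.Language.Theory.Model L ℕ S T →
    ∀ (P : Set ℕ) (m n : ℕ) (φ : L.Formula ((Fin m ⊕ Fin n) ⊕ Unit)), ∃ k : ℕ,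
      ¬ Shatters (fun (x : Fin m → ℕ) (y : Fin n → ℕ) =>
        ∃ z ∈ P, φ.Realize (Sum.elim (Sum.elim x y) fun _ => z)) k

/-- Unary predicates `P 0, P 1, ..`. -/
inductive UnRel : ℕ → Type
  | mk : ℕ → UnRel 1

/-- The language of the unary predicates. -/
def LU : FirstOrder.Language.{0, 0} := ⟨fun _ => Empty, UnRel⟩

/-- The structure on `ℕ` given by sets `W 0, W 1, ..`. -/
@[reducible] def luStr (W : ℕ → Set ℕ) : LU.Structure ℕ where
  funMap := fun f => nomatch f
  RelMap := fun {n} (r : UnRel n) => match n, r with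
    | _, UnRel.mk i => fun a => a 0 ∈ W i

/-- `T` is monadically NIP: in every expansion of a model on `ℕ` by unary predicates no formula shatters
arbitrarily large finite sets. -/
def IsMonadicallyNIP (L : FirstOrder.Language.{0, 0}) (T : L.Theory) : Prop :=
  ∀ S : L.Structure ℕ, @FirstOrder.Language.Theory.Model L ℕ S T →
    ∀ (W : ℕ → Set ℕ) (m n : ℕ) (φ : (L.sum LU).Formula (Fin m ⊕ Fin n)), ∃ k : ℕ,
      ¬ Shatters (fun (x : Fin m → ℕ) (y : Fin n → ℕ) =>
        @FirstOrder.Language.Formula.Realize (L.sum LU) ℕ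
          (@FirstOrder.Language.sumStructure L LU ℕ S (luStr W)) _ φ (Sum.elim x y)) k

/-! ### Proof -/

theorem nipOne_of {L : FirstOrder.Language.{0, 0}} {T : L.Theory} (h : IsMonadicallyNIP L T) :
    NIPOne L T := by
  intro S hS P m n φ
  let _ : LU.Structure ℕ := luStr fun _ => P
  let q : (L.sum LU).Relations 1 := Sum.inr (UnRel.mk 0 : LU.Relations 1)
  let ψ : (L.sum LU).Formula ((Fin m ⊕ Fin n) ⊕ Unit) :=
    (FirstOrder.Language.LHom.sumInl : L →ᴸ L.sum LU).onFormula φ ⊓
      q.formula fun _ => FirstOrder.Language.Term.var (Sum.inr ())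
  have hψ : ∀ v : (Fin m ⊕ Fin n) ⊕ Unit → ℕ,
      ψ.Realize v ↔ φ.Realize v ∧ v (Sum.inr ()) ∈ P := by
    intro v
    show ((FirstOrder.Language.LHom.sumInl : L →ᴸ L.sum LU).onFormula φ ⊓
      q.formula fun _ => FirstOrder.Language.Term.var (Sum.inr ())).Realize v ↔ _
    rw [FirstOrder.Language.Formula.realize_inf, FirstOrder.Language.LHom.realize_onFormula,
      FirstOrder.Language.Formula.realize_rel]
    exact Iff.rfl
  obtain ⟨k, hk⟩ := h S hS (fun _ => P) m n (ψ.iExs Unit)
  refine ⟨k, fun hc => hk ?_⟩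
  obtain ⟨x, y, hxy⟩ := hc
  refine ⟨x, y, fun i s => ?_⟩
  rw [← hxy i s]
  show (ψ.iExs Unit).Realize (Sum.elim (x i) (y s)) ↔ _
  rw [FirstOrder.Language.Formula.realize_iExs]
  constructor
  · rintro ⟨z, hz⟩
    have h1 := (hψ _).1 hz
    exact ⟨z (), h1.2, h1.1⟩
  · rintro ⟨z, hz, hz'⟩
    exact ⟨fun _ => z, (hψ _).2 ⟨hz', hz⟩⟩

theorem fe_of {L : FirstOrder.Language.{0, 0}} {M : Type} [L.Structure M] {B : Set M} {n : ℕ}
    {E : (Fin n → M) → (Fin n → M) → Prop} : Pool.Agent.MNO.FE L B E ↔ FinEquiv L B E :=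
  ⟨fun h => ⟨h.dfn, h.eqv, h.fin⟩, fun h => ⟨h.definable, h.equivalence, h.finite⟩⟩

theorem eba_of {L : FirstOrder.Language.{0, 0}} {M : Type} [L.Structure M] {B : Set M}
    (h : IsExtensionBase L B) : Pool.Agent.TPX.EBA L B := by
  intro n a
  obtain ⟨p, h1, h2⟩ := h n a
  refine ⟨fun P => Pool.Agent.MNO.Dp L (univ : Set M) P ∧ {x | P x} ∈ p,
    ⟨fun P hP => hP.1, fun P hP => ?_, fun P Q hP hQ => ?_, fun P hP => ?_⟩, ?_, fun E hE => ?_⟩
  · obtain ⟨x, hx⟩ := Ultrafilter.nonempty_of_mem hP.2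
    exact ⟨x, hx⟩
  · exact ⟨Pool.Agent.MNO.dp_and hP.1 hQ.1, Filter.inter_mem hP.2 hQ.2⟩
  · rcases Ultrafilter.mem_or_compl_mem p {x | P x} with h3 | h3
    · exact Or.inl ⟨hP, h3⟩
    · exact Or.inr ⟨Pool.Agent.MNO.dp_not hP, h3⟩
  · intro m P hP c c' hc h3
    refine ⟨Pool.Agent.MNO.dp_par (Pool.Agent.MNO.dp_mono (subset_univ _) hP) c'
      (fun j => mem_univ _), ?_⟩
    exact h2 m {v | P v} hP c c' (fun E hE => hc E (fe_of.2 hE)) h3.2
  · exact ⟨Pool.Agent.MNO.dp_mono (subset_univ _) (Pool.Agent.TPX.fe_cls hE a),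
      h1 E (fe_of.1 hE)⟩

theorem ebp_of {L : FirstOrder.Language.{0, 0}} {S : L.Structure ℕ} (h : HasBases L S) :
    @Pool.Agent.TPX.EBP L ℕ S := by
  obtain ⟨A₀, hA, h1⟩ := h
  refine ⟨A₀, hA, fun S' k hk B hB hAB => ?_⟩
  have h2 : ∀ (n : ℕ) (φ : L.Formula (Fin n)) (x : Fin n → ℕ),
      @FirstOrder.Language.Formula.Realize L ℕ S' _ φ (k ∘ x) ↔
        @FirstOrder.Language.Formula.Realize L ℕ S _ φ x := fun n φ x =>
    (@Pool.Agent.TPX.Emb.fm L ℕ ℕ S' S k hk (Fin n) _ φ x).symm
  exact @eba_of L ℕ S' B (h1 S' k h2 B hB hAB)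

theorem result_of (hT6 : Pool.Agent.TPX.St_T6P) (L : FirstOrder.Language.{0, 0})
    (hL : Countable L.Symbols) (T : L.Theory)
    (h1 : IsMonadicallyNIP L T ∨ NIPOne L T)
    (h2 : ∀ S : L.Structure ℕ, @FirstOrder.Language.Theory.Model L ℕ S T →
      IsOrdered L S ∨ HasBases L S) : Dich L T := by
  have hnip : NIPOne L T := h1.elim (fun h => nipOne_of h) id
  refine Pool.Agent.WOM.thm_INC Pool.Agent.WOM.thm_MEAS
    (Pool.Agent.WOM.thm_REAL Pool.Agent.WOM.thm_MEAS) L hL T fun S hS => ?_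
  have hmod : ∀ S' : L.Structure ℕ,
      @FirstOrder.Language.Theory.Model L ℕ S' (Pool.Agent.WOM.ThS L S) →
        @FirstOrder.Language.Theory.Model L ℕ S' T :=
    fun S' hS' => @Pool.Agent.WOM.TOP_mono L T S hS ℕ S' hS'
  by_cases ho : @Pool.Agent.UNS.OrP L ℕ S
  · refine Pool.Agent.MNO.all_MAINP L hL (Pool.Agent.WOM.ThS L S) fun S' hS' => ?_
    exact @Pool.Agent.MNO.HypP.mk L ℕ S' (Pool.Agent.UNS.thm_SOR L S S' hS' ho) (hnip S' (hmod S' hS'))
  · refine hT6 L hL (Pool.Agent.WOM.ThS L S) fun S' hS' => ⟨hnip S' (hmod S' hS'), ?_⟩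
    refine ebp_of ((h2 S' (hmod S' hS')).resolve_left fun h => ho ?_)
    refine Pool.Agent.UNS.thm_SOR L S' S ?_ h
    have e : Pool.Agent.WOM.ThS L S' = Pool.Agent.WOM.ThS L S := by
      ext χ
      constructor
      · intro h1
        by_contra h2
        have h3 : χ.not ∈ Pool.Agent.WOM.ThS L S := h2
        exact (@FirstOrder.Language.Theory.realize_sentence_of_mem _ ℕ S' _ hS' _ h3) h1
      · intro h1
        exact @FirstOrder.Language.Theory.realize_sentence_of_mem _ ℕ S' _ hS' _ h1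
    rw [e]
    exact @FirstOrder.Language.Theory.Model.mk _ ℕ S _ fun χ hχ => hχ

/-- Vaught's conjecture for all monadically NIP theories such that each model on `ℕ` has a linear order
definable with parameters or is one over which finite sets are extension bases. -/
theorem result (L : FirstOrder.Language.{0, 0}) (hL : Countable L.Symbols) (T : L.Theory)
    (h1 : IsMonadicallyNIP L T ∨ NIPOne L T)
    (h2 : ∀ S : L.Structure ℕ, @FirstOrder.Language.Theory.Model L ℕ S T →
      IsOrdered L S ∨ HasBases L S) : Dich L T :=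
  result_of Pool.Agent.TPX.all_T6P L hL T h1 h2

end Pool.Agent.Results.MP_5df2c5_lc.MonadicallyNIPBases
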