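import Pool.Agent.VSG.Sc
import Pool.Agent.VSG.LTB
import Pool.Agent.VSG.LTG
import Pool.Agent.VSG.LTP
import Pool.Agent.VSG.BEG

/-!
# Vaught's conjecture for infinitary logic and the sparsity of graphs: three sharp thresholds

Three scales of classes of sparse graphs on `ℕ`, given by a monotone function `s : ℕ → ℕ`:

* `NowhereDense s`: no `≤ r`-subdivision of the complete graph on `s r` vertices, for all `r`;
* `BoundedExpansion s`: if a graph `F` with `n` vertices has a `≤ r`-subdivision in `G`, then `F` has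
  at most `s r * n` edges;
* `LocalTreeWidth s`: the balls of radius `r` have tree-width at most `s r`.

For each of the three scales: if `s` is bounded, then Vaught's conjecture holds for all first-order
theories and sentences of `L_{ω₁,ω}` in countable relational languages whose models on `ℕ` have their
Gaifman graphs in the class; if `s` is unbounded, however slowly it grows (and `s 0 ≥ 3`, `2`, `1`,
respectively), then Vaught's conjecture for the sentences of `L_{ω₁,ω}` about graphs in the class is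
equivalent to Vaught's conjecture for `L_{ω₁,ω}` in general, and implies Vaught's conjecture for all
first-order theories in countable languages (the frozen statement `S14759`).
-/

set_option autoImplicit false

namespace Pool.Agent.Results.MP_5df2c5_lc.SparseThreshold

open Set FirstOrder Pool.Agent.Helper5.DU Pool.Agent.Helper79.VC

/-! ### Sparse graphs -/

/-- `G` contains a `≤ r`-subdivision of the graph `F` on `{0, ..., n - 1}`: there are different branch
vertices `b 0, ..., b (n - 1)`, and for every edge `{i, j}` of `F`, `i < j`, a path from `b i` to `b j`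
with at most `r` inner vertices (the list `P i j`), where no inner vertex is a branch vertex and
different paths have no inner vertex in common. -/
def HasSubdivision (G : SimpleGraph ℕ) (r n : ℕ) (F : SimpleGraph (Fin n)) : Prop :=
  ∃ (b : Fin n → ℕ) (P : Fin n → Fin n → List ℕ), Function.Injective b ∧
    (∀ i j, i < j → F.Adj i j → (P i j).length ≤ r ∧ (b i :: (P i j ++ [b j])).Nodup ∧
      List.IsChain G.Adj (b i :: (P i j ++ [b j]))) ∧
    (∀ i j k, i < j → F.Adj i j → b k ∉ P i j) ∧
    (∀ i j i' j', i < j → F.Adj i j → i' < j' → F.Adj i' j' → (i, j) ≠ (i', j') →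
      List.Disjoint (P i j) (P i' j'))

/-- `G` contains no subdivision of the infinite complete graph (with paths of any lengths). -/
def NoSubdivision (G : SimpleGraph ℕ) : Prop :=
  ¬ ∃ (b : ℕ → ℕ) (P : ℕ → ℕ → List ℕ), Function.Injective b ∧
    (∀ i j, i < j → (b i :: (P i j ++ [b j])).Nodup ∧
      List.IsChain G.Adj (b i :: (P i j ++ [b j]))) ∧
    (∀ i j k, i < j → b k ∉ P i j) ∧
    (∀ i j i' j', i < j → i' < j' → (i, j) ≠ (i', j') → List.Disjoint (P i j) (P i' j'))

/-- `G` contains no fat subdivision of the infinite complete graph: there are no different vertices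
`b 0, b 1, ...` such that for all `i < j` there is a number `m > 0` for which there are infinitely many
disjoint paths with `m` inner vertices from `b i` to `b j` (outside every finite set there is such a
path). -/
def NoFatSubdivision (G : SimpleGraph ℕ) : Prop :=
  ¬ ∃ b : ℕ → ℕ, Function.Injective b ∧ ∀ i j, i < j → ∃ m : ℕ, 0 < m ∧
    ∀ Z : Set ℕ, Z.Finite → ∃ P : List ℕ, P.length = m ∧ (∀ z ∈ P, z ∉ Z) ∧
      (b i :: (P ++ [b j])).Nodup ∧ List.IsChain G.Adj (b i :: (P ++ [b j]))

/-- Nowhere density with the bound `s`: for all `r` there is no `≤ r`-subdivision of the complete graph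
on `s r` vertices. -/
def NowhereDense (s : ℕ → ℕ) (G : SimpleGraph ℕ) : Prop :=
  ∀ r, ¬ HasSubdivision G r (s r) ⊤

/-- Bounded expansion with the bound `s`: if a graph `F` with `n` vertices has a `≤ r`-subdivision in
`G`, then `F` has at most `s r * n` edges. -/
def BoundedExpansion (s : ℕ → ℕ) (G : SimpleGraph ℕ) : Prop :=
  ∀ (r n : ℕ) (F : SimpleGraph (Fin n)), HasSubdivision G r n F → F.edgeSet.ncard ≤ s r * n

open Classical in
/-- `Chordal H k X`: the graph `H[X]` arises from the empty graph by adding vertices one at a time,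
each one joined to a clique of at most `k` earlier vertices. -/
inductive Chordal (H : SimpleGraph ℕ) (k : ℕ) : Finset ℕ → Prop
  | empty : Chordal H k ∅
  | add (X : Finset ℕ) (x : ℕ) : Chordal H k X → x ∉ X →
      (∀ y ∈ X, ∀ z ∈ X, y ≠ z → H.Adj x y → H.Adj x z → H.Adj y z) →
      (X.filter fun y => H.Adj x y).card ≤ k → Chordal H k (insert x X)

/-- The finite graph `G[X]` has tree-width at most `k`: it is a subgraph of such a graph. -/
def TreeWidthLE (G : SimpleGraph ℕ) (X : Finset ℕ) (k : ℕ) : Prop :=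
  ∃ H : SimpleGraph ℕ, (∀ x ∈ X, ∀ y ∈ X, G.Adj x y → H.Adj x y) ∧ Chordal H k X

/-- Locally bounded tree-width with the bound `s`: all finite subgraphs of the ball of radius `r` about
any vertex `v` have tree-width at most `s r`. -/
def LocalTreeWidth (s : ℕ → ℕ) (G : SimpleGraph ℕ) : Prop :=
  ∀ (r v : ℕ) (X : Finset ℕ), (∀ u ∈ X, ∃ p : G.Walk v u, p.length ≤ r) → TreeWidthLE G X (s r)

/-! ### Vaught's conjecture -/

/-- The dichotomy for a class `K` of structures on `ℕ` in a relational language: countably many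
isomorphism types, or a map from Cantor space to `K` with clopen atomic facts and pairwise
non-isomorphic values. -/
def Dich {L : FirstOrder.Language.{0, 0}} (K : Set (L.Structure ℕ)) : Prop :=
  (∃ g : ℕ → L.Structure ℕ, ∀ S ∈ K,
      ∃ n : ℕ, Nonempty (@FirstOrder.Language.Equiv L ℕ ℕ S (g n))) ∨
  (∃ f : (ℕ → Bool) → L.Structure ℕ, (∀ x : ℕ → Bool, f x ∈ K) ∧
      (∀ x y : ℕ → Bool, Nonempty (@FirstOrder.Language.Equiv L ℕ ℕ (f x) (f y)) → x = y) ∧
      (∀ (n : ℕ) (R : L.Relations n) (a : Fin n → ℕ),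
        IsClopen {x : ℕ → Bool | @FirstOrder.Language.Structure.RelMap L ℕ (f x) n R a}))

/-- Vaught's conjecture for the class `C` of graphs: the dichotomy for the models on `ℕ` of `T` and `φ`,
in all countable relational languages (symbols of all arities), for all first-order theories `T` and
sentences `φ` of `L_{ω₁,ω}` such that the Gaifman graphs of all models of `T` and `φ` on `ℕ` are in
`C`. -/
def VC (C : SimpleGraph ℕ → Prop) : Prop :=
  ∀ L : FirstOrder.Language.{0, 0}, Countable L.Symbols → (∀ n, IsEmpty (L.Functions n)) →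
    ∀ (T : L.Theory) (φ : FmI L 0),
      (∀ S : L.Structure ℕ, @FirstOrder.Language.Theory.Model L ℕ S T → Sat S φ Fin.elim0 →
        C (gaif S)) →
      Dich {S : L.Structure ℕ | @FirstOrder.Language.Theory.Model L ℕ S T ∧ Sat S φ Fin.elim0}

/-- Vaught's conjecture for `L_{ω₁,ω}` (countable relational languages, all first-order theories `T`
and sentences `φ` of `L_{ω₁,ω}`). -/
def VCInfinitary : Prop := VC fun _ => True

/-- `S` is a graph (simple and undirected). -/
def IsGraph (S : FirstOrder.Language.graph.Structure ℕ) : Prop :=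
  (∀ x, ¬ S.RelMap FirstOrder.Language.adj ![x, x]) ∧
    ∀ x y, S.RelMap FirstOrder.Language.adj ![x, y] → S.RelMap FirstOrder.Language.adj ![y, x]

/-- Vaught's conjecture for sentences about graphs in `C`: the dichotomy for the models on `ℕ` of `φ`,
for all sentences `φ` of `L_{ω₁,ω}` in the language of graphs all of whose models on `ℕ` are graphs
in `C`. -/
def VCGraphs (C : SimpleGraph ℕ → Prop) : Prop :=
  ∀ φ : FmI FirstOrder.Language.graph 0,
    (∀ S : FirstOrder.Language.graph.Structure ℕ, Sat S φ Fin.elim0 → IsGraph S ∧ C (gaif S)) →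
      Dich {S : FirstOrder.Language.graph.Structure ℕ | Sat S φ Fin.elim0}

/-- Vaught's conjecture for all first-order theories in countable languages (the frozen statement
`S14759`). -/
def FullVC : Prop :=
  ∀ (L : FirstOrder.Language.{0, 0}), Countable L.Symbols → ∀ (T : L.Theory),
      (∃ g : ℕ → L.Structure ℕ, ∀ S : L.Structure ℕ,
          @FirstOrder.Language.Theory.Model L ℕ S T →
            ∃ n : ℕ, Nonempty (@FirstOrder.Language.Equiv L ℕ ℕ S (g n))) ∨
      (∃ f : (ℕ → Bool) → L.Structure ℕ,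
          (∀ x : ℕ → Bool, @FirstOrder.Language.Theory.Model L ℕ (f x) T) ∧
          (∀ x y : ℕ → Bool,
              Nonempty (@FirstOrder.Language.Equiv L ℕ ℕ (f x) (f y)) → x = y) ∧
          (∀ (n : ℕ) (R : L.Relations n) (a : Fin n → ℕ),
              IsClopen {x : ℕ → Bool | @FirstOrder.Language.Structure.RelMap L ℕ (f x) n R a}) ∧
          (∀ (n : ℕ) (F : L.Functions n) (a : Fin n → ℕ) (b : ℕ),
              IsOpen {x : ℕ → Bool | @FirstOrder.Language.Structure.funMap L ℕ (f x) n F a = b}))

/-- The threshold for the scale `C` of classes of graphs: for monotone `s`, Vaught's conjecture holds for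
`C s` if `s` is bounded; if `s` is unbounded and `s 0 ≥ c₀`, Vaught's conjecture for sentences about
graphs in `C s` is equivalent to Vaught's conjecture for `L_{ω₁,ω}`. -/
def Threshold (C : (ℕ → ℕ) → SimpleGraph ℕ → Prop) (c₀ : ℕ) : Prop :=
  ∀ s : ℕ → ℕ, Monotone s →
    ((∃ c, ∀ r, s r ≤ c) → VC (C s)) ∧
    (c₀ ≤ s 0 → (¬ ∃ c, ∀ r, s r ≤ c) → (VCGraphs (C s) ↔ VCInfinitary))

/-! ## Proof -/

theorem dich_of {L : FirstOrder.Language.{0, 0}} (hrel : ∀ n, IsEmpty (L.Functions n))
    (K : Set (L.Structure ℕ)) :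
    Dich K ↔ Pool.Agent.Helper6.Str.CtblK K ∨ Pool.Agent.Helper6.Str.PerfK K := by
  constructor
  · rintro (⟨g, hg⟩ | ⟨f, h1, h2, h3⟩)
    · exact Or.inl ⟨g, fun S hS => (hg S hS).imp fun n h => VPF.CC.iso_of_equiv h⟩
    · exact Or.inr ⟨f, h1, fun x y h => h2 x y (VPF.CC.equiv_of_iso h), h3⟩
  · rintro (⟨g, hg⟩ | ⟨f, h1, h2, h3⟩)
    · exact Or.inl ⟨g, fun S hS => (hg S hS).imp fun n h => VPF.CC.equiv_of_iso h⟩
    · exact Or.inr ⟨f, h1, fun x y h => h2 x y (VPF.CC.iso_of_equiv h), h3⟩

theorem chordal_iff {H : SimpleGraph ℕ} {k : ℕ} {X : Finset ℕ} : Chordal H k X ↔ VSG.Elm H k X := by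
  constructor
  · intro h
    induction h with
    | empty => exact VSG.Elm.emp
    | add X x _ hx hc hk ih =>
      refine Eq.subst (motive := fun Y => VSG.Elm H k Y) ?_ (VSG.Elm.add X x ih hx hc hk)
      ext y
      simp only [Finset.mem_insert]
  · intro h
    induction h with
    | emp => exact Chordal.empty
    | add X x _ hx hc hk ih =>
      refine Eq.subst (motive := fun Y => Chordal H k Y) ?_ (Chordal.add X x ih hx hc hk)
      ext y
      simp only [Finset.mem_insert]

theorem lt_iff {s : ℕ → ℕ} {G : SimpleGraph ℕ} : LocalTreeWidth s G ↔ VSG.LT s G := by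
  constructor
  · intro h r v X hX
    obtain ⟨H, h1, h2⟩ := h r v X hX
    exact ⟨H, h1, chordal_iff.1 h2⟩
  · intro h r v X hX
    obtain ⟨H, h1, h2⟩ := h r v X hX
    exact ⟨H, h1, chordal_iff.2 h2⟩

theorem nd_iff {s : ℕ → ℕ} {G : SimpleGraph ℕ} : NowhereDense s G ↔ VSG.ND s G :=
  forall_congr' fun _ => not_congr VSG.hasSub_of_top

/-- Vaught's conjecture for graphs without subdivision of the infinite complete graph. -/
theorem vc_noSubdivision : VC NoSubdivision := by
  intro L hL hrel T φ h
  exact Pool.Agent.Helper6.VC.dichotomy_of_finBdry hL T φ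
    (Pool.Agent.Helper6.VC.finBdry_of_cases hL T φ (Or.inr (Or.inr fun S hS hTK =>
      h S hS.1 hS.2 hTK)))

/-- Vaught's conjecture for graphs without fat subdivision of the infinite complete graph. -/
theorem vc_noFat : VC NoFatSubdivision := by
  intro L hL hrel T φ h
  refine Pool.Agent.Helper6.VC.dichotomy_of_finBdry hL T φ
    (Pool.Agent.Helper6.VC.finBdry_of_cases hL T φ (Or.inr (Or.inl fun S hS hTK => ?_)))
  obtain ⟨b, hb, h1⟩ := hTK
  refine h S hS.1 hS.2 ⟨b, hb, fun i j hij => ?_⟩
  obtain ⟨F, m, -, hm, h2⟩ := h1 i j hij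
  refine ⟨m, hm, fun Z hZ => ?_⟩
  obtain ⟨P, h3, h4, h5, h6⟩ := h2 Z hZ
  refine ⟨P, h3, h4, h5, h6.imp fun x y hxy => ?_⟩
  obtain ⟨h7, r, -, v, h8, h9, h10⟩ := hxy
  exact ⟨h7, r.1, r.2, v, h8, h9, h10⟩

theorem vc_mono {C C' : SimpleGraph ℕ → Prop} (h : ∀ G, C G → C' G) (hV : VC C') : VC C :=
  fun L hL hrel T φ hφ => hV L hL hrel T φ fun S h1 h2 => h _ (hφ S h1 h2)

/-- Vaught's conjecture for bounded `t`. -/
theorem vc_bounded {t : ℕ → ℕ} {c : ℕ} (hc : ∀ r, t r ≤ c) {C : SimpleGraph ℕ → Prop}
    (h : ∀ G, C G → ∀ r, ¬ VSG.HasSub G r (t r)) : VC C := by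
  refine vc_mono (fun G hG hTK => ?_) vc_noSubdivision
  obtain ⟨r, hr⟩ := VSG.POS_sub hTK c
  exact h G hG r (hr (t r) (hc r))

theorem graphs_of_inf {C : SimpleGraph ℕ → Prop} (h : VCInfinitary) : VCGraphs C := by
  intro φ _
  have hc : Countable FirstOrder.Language.graph.Symbols := by
    have h1 : ∀ n, Countable (FirstOrder.Language.graph.Relations n) := by
      intro n
      by_cases hn : n = 2
      · subst hn
        refine ⟨fun _ => 0, fun R R' _ => ?_⟩
        cases R
        cases R'
        rfl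
      · have : IsEmpty (FirstOrder.Language.graph.Relations n) := ⟨fun R => by
          cases R
          exact hn rfl⟩
        infer_instance
    have h2 : ∀ n, IsEmpty (FirstOrder.Language.graph.Functions n) := fun n =>
      inferInstanceAs (IsEmpty Empty)
    have h3 : Countable ((n : ℕ) × FirstOrder.Language.graph.Functions n) := inferInstance
    have h4 : Countable ((n : ℕ) × FirstOrder.Language.graph.Relations n) := inferInstance
    exact inferInstanceAs (Countable (((n : ℕ) × FirstOrder.Language.graph.Functions n) ⊕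
      ((n : ℕ) × FirstOrder.Language.graph.Relations n)))
  have h1 := h FirstOrder.Language.graph hc (fun n => inferInstanceAs (IsEmpty Empty)) ∅ φ
    fun _ _ _ => trivial
  have h2 : {S : FirstOrder.Language.graph.Structure ℕ |
      @FirstOrder.Language.Theory.Model _ ℕ S ∅ ∧ Sat S φ Fin.elim0} =
      {S : FirstOrder.Language.graph.Structure ℕ | Sat S φ Fin.elim0} := by
    ext S
    exact ⟨fun h => h.2, fun h => ⟨⟨fun ψ hψ => absurd hψ (Set.notMem_empty ψ)⟩, h⟩⟩
  rwa [h2] at h1

theorem inf_of_layered (hV : VSG.VCL) : VCInfinitary := by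
  intro L hL hrel T φ _
  have hcr : ∀ n, Countable (L.Relations n) := Pool.Agent.Helper6.Str.countable_relations hL
  exact (dich_of hrel _).2 (VSG.all_of_layered hV L T φ)

theorem full_of_inf (h : VCInfinitary) : FullVC :=
  VSG.full_of_all fun L hrel hcr T φ => by
    have hF : Countable ((n : ℕ) × L.Functions n) := by
      have : IsEmpty ((n : ℕ) × L.Functions n) := ⟨fun x => isEmptyElim x.2⟩
      infer_instance
    have hR : Countable ((n : ℕ) × L.Relations n) := inferInstance
    have hL : Countable L.Symbols :=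
      inferInstanceAs (Countable (((n : ℕ) × L.Functions n) ⊕ ((n : ℕ) × L.Relations n)))
    exact (dich_of hrel _).1 (h L hL hrel T φ fun _ _ _ => trivial)

theorem vcg_of {C : SimpleGraph ℕ → Prop} {C' : (V : Type) → SimpleGraph V → Prop}
    (h : ∀ G, C' ℕ G → C G) (hV : VCGraphs C) : VSG.VCG C' := fun κ hκ =>
  (dich_of (fun n => inferInstanceAs (IsEmpty Empty)) _).1
    (hV κ fun S hS => ⟨(hκ S hS).1, h _ (hκ S hS).2⟩)

theorem threshold_of {C : (ℕ → ℕ) → SimpleGraph ℕ → Prop} {c₀ : ℕ}
    (hb : ∀ s : ℕ → ℕ, (∃ c, ∀ r, s r ≤ c) → VC (C s))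
    (hu : ∀ s : ℕ → ℕ, Monotone s → c₀ ≤ s 0 → (∀ c, ∃ r, c < s r) → VCGraphs (C s) → VSG.VCL) :
    Threshold C c₀ := by
  intro s hm
  refine ⟨hb s, fun h0 hn => ?_⟩
  have h1 : ∀ c, ∃ r, c < s r := by
    push Not at hn
    exact hn
  exact ⟨fun h => inf_of_layered (hu s hm h0 h1 h), graphs_of_inf⟩

open VSG in
theorem final (hLTB : St_LTB) (hLTG : St_LTG) (hLTP : St_LTP) (hBEG : St_BEG) :
    VC NoSubdivision ∧ VC NoFatSubdivision ∧ Threshold NowhereDense 3 ∧ Threshold BoundedExpansion 2 ∧
      Threshold LocalTreeWidth 1 ∧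
      (∀ s : ℕ → ℕ, Monotone s → 3 ≤ s 0 → (¬ ∃ c, ∀ r, s r ≤ c) →
        (VCGraphs (fun G => NowhereDense s G ∧ BoundedExpansion s G ∧ LocalTreeWidth s G) ↔
          VCInfinitary)) ∧
      (VCInfinitary → FullVC) := by
  refine ⟨vc_noSubdivision, vc_noFat, threshold_of ?_ ?_, threshold_of ?_ ?_, threshold_of ?_ ?_,
    fun s hm h0 hn => ⟨fun hV => ?_, graphs_of_inf⟩, full_of_inf⟩
  · rintro s ⟨c, hc⟩
    exact vc_bounded hc fun G hG => nd_iff.1 hG
  · intro s hm h0 hu hV
    exact hard_ND hLTB hLTG hLTP s hm h0 hu (vcg_of (fun G hG => nd_iff.2 hG) hV)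
  · rintro s ⟨c, hc⟩
    exact vc_bounded (t := fun _ => 2 * c + 2) (fun _ => le_rfl) fun G hG r =>
      BE.nosub (s := s) (fun r n F hF => hG r n F hF) (hc r)
  · intro s hm h0 hu hV
    exact hard_BE hBEG s hm h0 hu (vcg_of (fun G hG => hG) hV)
  · rintro s ⟨c, hc⟩
    exact vc_bounded (t := fun r => s (2 * r + 1) + 2) (fun r => Nat.add_le_add_right (hc _) 2)
      fun G hG r => hLTB ℕ G s (lt_iff.1 hG) r
  · intro s hm h0 hu hV
    exact hard_LT hLTG hLTP s hm h0 hu (vcg_of (fun G hG => lt_iff.2 hG) hV)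
  · have hu : ∀ c, ∃ r, c < s r := by
      push Not at hn
      exact hn
    exact inf_of_layered (hard_ALL hLTB hLTG hLTP hBEG s hm h0 hu
      (vcg_of (fun G hG => ⟨nd_iff.2 hG.1, hG.2.1, lt_iff.2 hG.2.2⟩) hV))

/-- **Vaught's conjecture for infinitary logic and the sparsity of graphs: three sharp thresholds.** -/
theorem result :
    VC NoSubdivision ∧ VC NoFatSubdivision ∧ Threshold NowhereDense 3 ∧
      Threshold BoundedExpansion 2 ∧ Threshold LocalTreeWidth 1 ∧
      (∀ s : ℕ → ℕ, Monotone s → 3 ≤ s 0 → (¬ ∃ c, ∀ r, s r ≤ c) →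
        (VCGraphs (fun G => NowhereDense s G ∧ BoundedExpansion s G ∧ LocalTreeWidth s G) ↔
          VCInfinitary)) ∧
      (VCInfinitary → FullVC) :=
  final VSG.thm_LTB VSG.thm_LTG VSG.thm_LTP VSG.thm_BEG

end Pool.Agent.Results.MP_5df2c5_lc.SparseThreshold
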