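import Pool.Agent.UNS.All
import Pool.Agent.UNS.AllT
import Pool.Agent.OGD.Ren
import Pool.Agent.OGD.All
import Pool.Agent.PMC.ResT3
import Pool.Agent.TPY.ALL3

/-!
# Vaught's conjecture for universal classes of relational structures

A class `K` of finite structures `(A, R_c)_{c : κ}` with countably many relations `R_c` of arbitrary
arities is given by its members on `{0, ..., n - 1}`; `K` is closed (no condition if `κ` is finite).  We
consider all first-order theories of structures whose finite substructures belong to `K`, with countably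
many arbitrary unary predicates (colors).

* If `K` is monadically NIP then Vaught's conjecture holds for these theories.
* If `K` is not monadically NIP then Vaught's conjecture for these theories is equivalent to Vaught's
  conjecture for all first-order theories in countable languages (the frozen statement `S14759`).
-/

set_option autoImplicit false

namespace Pool.Agent.Results.MP_5df2c5_lc.UniversalClasses

open Set FirstOrder Pool.Agent.UNS

/-! ### Universal classes of relational structures -/

/-- A class of finite structures with relations `R_c` of arity `ar c`, `c : κ`: for each `n` a set of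
families of relations on `{0, ..., n - 1}`. -/
abbrev FiniteClass {κ : Type} (ar : κ → ℕ) : Type :=
  (n : ℕ) → Set ((c : κ) → (Fin (ar c) → Fin n) → Prop)

/-- `K` is closed: a structure belongs to `K` if each of its reducts to finitely many relations is the
reduct of a member of `K` (always true if `κ` is finite). -/
def Closed {κ : Type} {ar : κ → ℕ} (K : FiniteClass ar) : Prop :=
  ∀ (n : ℕ) (r : (c : κ) → (Fin (ar c) → Fin n) → Prop),
    (∀ s : Finset κ, ∃ r' ∈ K n, ∀ c ∈ s, r' c = r c) → r ∈ K n

/-- Relation symbols of arity `ar c`, `c : κ`, and unary relation symbols (colors) indexed by `ι`. -/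
inductive Sym (ι : Type) {κ : Type} (ar : κ → ℕ) : ℕ → Type
  | color (i : ι) : Sym ι ar 1
  | rel (c : κ) : Sym ι ar (ar c)

/-- The language of structures with colors. -/
def Lang (ι : Type) {κ : Type} (ar : κ → ℕ) : FirstOrder.Language.{0, 0} :=
  ⟨fun _ => Empty, Sym ι ar⟩

/-- All finite substructures of `S` (for the relations of the symbols `rel c`) belong to `K`, for every
enumeration without repetitions. -/
def InClass {ι κ : Type} {ar : κ → ℕ} (K : FiniteClass ar) (S : (Lang ι ar).Structure ℕ) : Prop :=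
  ∀ (m : ℕ) (z : Fin m → ℕ), Function.Injective z →
    (fun c v => S.RelMap (n := ar c) (Sym.rel c : Sym ι ar (ar c)) fun i => z (v i)) ∈ K m

/-- `F` shatters a set with `k` elements. -/
def Shatters {α β : Type} (F : α → β → Prop) (k : ℕ) : Prop :=
  ∃ (x : Fin k → α) (y : Set (Fin k) → β), ∀ i s, F (x i) (y s) ↔ i ∈ s

/-- `K` is monadically NIP: in no structure of the class, expanded by countably many unary predicates,
does a first-order formula in two tuples of variables shatter arbitrarily large finite sets. -/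
def MonadicallyNIP {κ : Type} {ar : κ → ℕ} (K : FiniteClass ar) : Prop :=
  ∀ (ι : Type), Countable ι → ∀ S : (Lang ι ar).Structure ℕ, InClass K S →
    ∀ (m n : ℕ) (φ : (Lang ι ar).Formula (Fin m ⊕ Fin n)), ∃ k,
      ¬ Shatters (fun (x : Fin m → ℕ) (y : Fin n → ℕ) => φ.Realize (Sum.elim x y)) k

/-! ### Vaught's conjecture -/

/-- The dichotomy for a theory (the conclusion of `S14759`): its models on `ℕ` fall into countably
many isomorphism classes, or a continuous map from Cantor space to these models has pairwise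
nonisomorphic values. -/
def Dich (L : FirstOrder.Language.{0, 0}) (T : L.Theory) : Prop :=
  (∃ g : ℕ → L.Structure ℕ, ∀ S : L.Structure ℕ,
      @FirstOrder.Language.Theory.Model L ℕ S T →
        ∃ n : ℕ, Nonempty (@FirstOrder.Language.Equiv L ℕ ℕ S (g n))) ∨
  (∃ f : (ℕ → Bool) → L.Structure ℕ,
      (∀ x : ℕ → Bool, @FirstOrder.Language.Theory.Model L ℕ (f x) T) ∧
      (∀ x y : ℕ → Bool,
          Nonempty (@FirstOrder.Language.Equiv L ℕ ℕ (f x) (f y)) → x = y) ∧
      (∀ (n : ℕ) (R : L.Relations n) (a : Fin n → ℕ),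
          IsClopen {x : ℕ → Bool | @FirstOrder.Language.Structure.RelMap L ℕ (f x) n R a}) ∧
      (∀ (n : ℕ) (F : L.Functions n) (a : Fin n → ℕ) (b : ℕ),
          IsOpen {x : ℕ → Bool | @FirstOrder.Language.Structure.funMap L ℕ (f x) n F a = b}))

/-- Vaught's conjecture for all first-order theories in countable languages (the frozen statement
`S14759`). -/
def FullVC : Prop :=
  ∀ (L : FirstOrder.Language.{0, 0}), Countable L.Symbols → ∀ (T : L.Theory), Dich L T

/-- Vaught's conjecture for `K`: the dichotomy for all first-order theories of structures with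
countably many colors whose models on `ℕ` are in the class. -/
def VC {κ : Type} {ar : κ → ℕ} (K : FiniteClass ar) : Prop :=
  ∀ (ι : Type), Countable ι → ∀ T : (Lang ι ar).Theory,
    (∀ S : (Lang ι ar).Structure ℕ,
      @FirstOrder.Language.Theory.Model (Lang ι ar) ℕ S T → InClass K S) → Dich (Lang ι ar) T

/-! ## Proof -/

/-- the names of the symbols -/
def names (ι : Type) {κ : Type} (ar : κ → ℕ) :
    ∀ n, (Lang ι ar).Relations n ≃ (LU ι ar).Relations n := fun n =>
  { toFun := fun R => match n, R with
      | _, Sym.color i => Sm.un i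
      | _, Sym.rel c => (Sm.rl c : Sm ι ar (ar c))
    invFun := fun R => match n, R with
      | _, Sm.un i => Sym.color i
      | _, Sm.rl c => (Sym.rel c : Sym ι ar (ar c))
    left_inv := by
      intro R
      cases R <;> rfl
    right_inv := by
      intro R
      cases R <;> rfl }

theorem lang_rel (ι : Type) {κ : Type} (ar : κ → ℕ) : ∀ n, IsEmpty ((Lang ι ar).Functions n) :=
  fun n => ⟨fun x => Empty.elim x⟩

theorem lu_rel (ι : Type) {κ : Type} (ar : κ → ℕ) : ∀ n, IsEmpty ((LU ι ar).Functions n) :=
  fun n => ⟨fun x => Empty.elim x⟩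

open VPF (ModF) in
theorem dich_iff {L : FirstOrder.Language.{0, 0}} (hF : ∀ n, IsEmpty (L.Functions n))
    (T : L.Theory) : Dich L T ↔ Pool.Agent.Helper6.Str.CtblK (ModF T) ∨
      Pool.Agent.Helper6.Str.PerfK (ModF T) :=
  OGD.dich_iff hF T

theorem old_iff {ι κ : Type} {ar : κ → ℕ} (K : FiniteClass ar) (S : (LU ι ar).Structure ℕ) :
    InClass K (OGD.Ren_old (lang_rel ι ar) (names ι ar) S) ↔ InX K S := Iff.rfl

theorem old_iff' {ι κ : Type} {ar : κ → ℕ} (K : FiniteClass ar) (S : (Lang ι ar).Structure ℕ) :
    InX K (OGD.Ren_old (lu_rel ι ar) (fun n => (names ι ar n).symm) S) ↔ InClass K S := Iff.rfl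

theorem vc_iff {κ : Type} {ar : κ → ℕ} (K : FiniteClass ar) : VC K ↔ VCU K := by
  constructor
  · intro h ι hι T hT
    refine OGD.Ren_dich (lu_rel ι ar) (lang_rel ι ar) (fun n => (names ι ar n).symm) T
      ((dich_iff (lang_rel ι ar) _).1 (h ι hι _ fun S hS => ?_))
    exact (old_iff' K S).1 (hT _ ((OGD.Ren_model (lu_rel ι ar)
      (fun n => (names ι ar n).symm) T S).1 hS))
  · intro h ι hι T hT
    refine (dich_iff (lang_rel ι ar) T).2 (OGD.Ren_dich (lang_rel ι ar) (lu_rel ι ar)
      (names ι ar) T (h ι hι _ fun S hS => ?_))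
    exact (old_iff K S).1 (hT _ ((OGD.Ren_model (lang_rel ι ar) (names ι ar) T S).1 hS))

/-- `S` is an expansion of its old structure -/
theorem isexp (ι : Type) {κ : Type} (ar : κ → ℕ) (S : (Lang ι ar).Structure ℕ) :
    @FirstOrder.Language.LHom.IsExpansionOn (LU ι ar) (Lang ι ar)
      (OGD.Ren_hom (lu_rel ι ar) fun n => (names ι ar n).symm) ℕ
      (OGD.Ren_old (lu_rel ι ar) (fun n => (names ι ar n).symm) S) S := by
  let _ := S
  let _ := OGD.Ren_old (lu_rel ι ar) (fun n => (names ι ar n).symm) S
  exact
    { map_onFunction := fun {n} f _ => (lu_rel ι ar n).elim f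
      map_onRelation := fun {n} R v => rfl }

theorem isexp' (ι : Type) {κ : Type} (ar : κ → ℕ) (S : (LU ι ar).Structure ℕ) :
    @FirstOrder.Language.LHom.IsExpansionOn (LU ι ar) (Lang ι ar)
      (OGD.Ren_hom (lu_rel ι ar) fun n => (names ι ar n).symm) ℕ
      S (OGD.Ren_old (lang_rel ι ar) (names ι ar) S) := by
  let _ := S
  let _ := OGD.Ren_old (lang_rel ι ar) (names ι ar) S
  exact
    { map_onFunction := fun {n} f _ => (lu_rel ι ar n).elim f
      map_onRelation := fun {n} R v => by
        show S.RelMap (names ι ar n ((names ι ar n).symm R)) v = S.RelMap R v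
        rw [Equiv.apply_symm_apply] }

theorem isexp'' (ι : Type) {κ : Type} (ar : κ → ℕ) (S : (Lang ι ar).Structure ℕ) :
    @FirstOrder.Language.LHom.IsExpansionOn (Lang ι ar) (LU ι ar)
      (OGD.Ren_hom (lang_rel ι ar) (names ι ar)) ℕ
      S (OGD.Ren_old (lu_rel ι ar) (fun n => (names ι ar n).symm) S) := by
  let _ := S
  let _ := OGD.Ren_old (lu_rel ι ar) (fun n => (names ι ar n).symm) S
  exact
    { map_onFunction := fun {n} f _ => (lang_rel ι ar n).elim f
      map_onRelation := fun {n} R v => by
        show S.RelMap ((names ι ar n).symm (names ι ar n R)) v = S.RelMap R v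
        rw [Equiv.symm_apply_apply] }

theorem nip_iff {κ : Type} {ar : κ → ℕ} (K : FiniteClass ar) : MonadicallyNIP K ↔ MonN K := by
  constructor
  · intro h ι hι S hS m n φ
    let S' : (Lang ι ar).Structure ℕ := OGD.Ren_old (lang_rel ι ar) (names ι ar) S
    obtain ⟨k, hk⟩ := h ι hι S' ((old_iff K S).2 hS) m n
      ((OGD.Ren_hom (lu_rel ι ar) fun n => (names ι ar n).symm).onFormula φ)
    refine ⟨k, fun hc => hk ?_⟩
    obtain ⟨x, y, hxy⟩ := hc
    refine ⟨x, y, fun i s => ?_⟩
    rw [← hxy i s]
    have := isexp' ι ar S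
    exact FirstOrder.Language.LHom.realize_onFormula
      (OGD.Ren_hom (lu_rel ι ar) fun n => (names ι ar n).symm) φ
  · intro h ι hι S hS m n φ
    let S' : (LU ι ar).Structure ℕ :=
      OGD.Ren_old (lu_rel ι ar) (fun n => (names ι ar n).symm) S
    obtain ⟨k, hk⟩ := h ι hι S' ((old_iff' K S).2 hS) m n
      ((OGD.Ren_hom (lang_rel ι ar) (names ι ar)).onFormula φ)
    refine ⟨k, fun hc => hk ?_⟩
    obtain ⟨x, y, hxy⟩ := hc
    refine ⟨x, y, fun i s => ?_⟩
    rw [← hxy i s]
    have := isexp'' ι ar S
    exact FirstOrder.Language.LHom.realize_onFormula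
      (OGD.Ren_hom (lang_rel ι ar) (names ι ar)) φ

theorem lang_countable (ι : Type) (hι : Countable ι) {κ : Type} (hκ : Countable κ) (ar : κ → ℕ) :
    Countable (Lang ι ar).Symbols := by
  have h1 : Countable (Σ m, (Lang ι ar).Functions m) := by
    have : ∀ m, Countable ((Lang ι ar).Functions m) :=
      fun m => (inferInstance : Countable Empty)
    infer_instance
  have h2 : Countable (Σ m, (Lang ι ar).Relations m) := by
    have h3 : Function.Surjective (fun x : ι ⊕ κ => (match x with
        | .inl i => ⟨1, (Sym.color i : Sym ι ar 1)⟩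
        | .inr c => ⟨ar c, (Sym.rel c : Sym ι ar (ar c))⟩ :
          Σ m, (Lang ι ar).Relations m)) := by
      rintro ⟨m, R⟩
      cases R with
      | color i => exact ⟨.inl i, rfl⟩
      | rel c => exact ⟨.inr c, rfl⟩
    exact h3.countable
  exact (inferInstance : Countable ((Σ m, (Lang ι ar).Functions m) ⊕
    (Σ m, (Lang ι ar).Relations m)))

theorem pos_of (hT6 : Pool.Agent.TPX.St_T6F) (κ : Type) (hκ : Countable κ) (ar : κ → ℕ) (K : FiniteClass ar)
    (h : MonadicallyNIP K) : VC K := by
  refine (vc_iff K).2 fun ι hι T hT => ?_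
  have hf := lu_rel ι ar
  rcases hT6 (LU ι ar) (POU_ctb hι hκ) T
    fun S hS => POT_nip hι ((nip_iff K).1 h) S (hT S hS) with ⟨g, hg⟩ | ⟨f, h1, h2, h3, _⟩
  · exact Or.inl ⟨g, fun S hS => (hg S hS).imp fun n h => VPF.CC.iso_of_equiv h⟩
  · exact Or.inr ⟨f, h1, fun x y h => h2 x y (VPF.CC.equiv_of_iso h), h3⟩

theorem result_of (hFGE : St_FGE)
    (hUSH : ∀ (κ : Type), Countable κ → ∀ (ar : κ → ℕ) (K : Cla ar), FG K → VCU K →
      ∀ (ι : Type), Countable ι → ∀ T : (PMC.LP ι).Theory, (∀ S ∈ VPF.ModF T, PMC.Two S) →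
        Pool.Agent.Helper6.Str.CtblK (VPF.ModF T) ∨ Pool.Agent.Helper6.Str.PerfK (VPF.ModF T))
    (hT6 : Pool.Agent.TPX.St_T6F)
    (κ : Type) (hκ : Countable κ) (ar : κ → ℕ) (K : FiniteClass ar) (hC : Closed K) :
    (MonadicallyNIP K → VC K) ∧ (¬ MonadicallyNIP K → (VC K ↔ FullVC)) := by
  have hC' : Clo K := fun n r h => hC n r fun s => by
    obtain ⟨r', h1, h2⟩ := h s
    exact ⟨r', h1, fun c hc => funext fun v => propext (h2 c hc v)⟩
  refine ⟨pos_of hT6 κ hκ ar K, fun h => ?_⟩
  obtain ⟨G⟩ := hFGE κ ar K hC' fun h' => h ((nip_iff K).2 h')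
  constructor
  · intro hV
    refine PMC.ResT3.full_of_vc fun ι hι T hT => ?_
    exact (OGD.dich_iff (OGD.lp_rel ι) T).2 (hUSH κ hκ ar K G ((vc_iff K).1 hV) ι hι T
      fun S hS => (hT S hS).1)
  · intro hF ι hι T _
    exact hF (Lang ι ar) (lang_countable ι hι hκ ar) T

/-- Vaught's conjecture for a universal class `K` of relational structures with unary predicates holds
if `K` is monadically NIP; otherwise it is equivalent to the full conjecture. -/
theorem result (κ : Type) (hκ : Countable κ) (ar : κ → ℕ) (K : FiniteClass ar)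
    (hC : Closed K) :
    (MonadicallyNIP K → VC K) ∧ (¬ MonadicallyNIP K → (VC K ↔ FullVC)) :=
  result_of all_FGE all_USH Pool.Agent.TPY.all_T6F κ hκ ar K hC

end Pool.Agent.Results.MP_5df2c5_lc.UniversalClasses
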