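import Pool.Agent.WOM.NAE

/-!
# Vaught's conjecture for weakly o-minimal theories without adic types

Let `T` be a first-order theory in a countable relational language all of whose countable models
are weakly o-minimal with respect to a fixed formula `lt`, and such that no countable saturated
model of `T` has an adic type.  Then the models of `T` on `ℕ` fall into countably many isomorphism
types, or there are perfectly many of them.

An adic type is a complete type `p` over a finite set `A`, together with a complete type `q` over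
`A`, weakly orthogonal to `p`, and an `A`-definable family `(E z)`, `z ⊨ q`, of equivalence relations
with convex classes on the realisations of `p`, any two of them comparable by inclusion, which are
not all equal.  (So `p` carries an infinite definable chain of convex equivalence relations.)
-/

set_option autoImplicit false

namespace Pool.Agent.Results.MP_5df2c5_lc.WeaklyOMinimalNonAdic

section

variable (L : FirstOrder.Language.{0, 0}) (M : Type) [L.Structure M]

/-- `M` is weakly o-minimal with respect to the formula `lt`: `lt` defines a strict linear order,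
and every subset of `M` definable with parameters is a finite union of convex sets. -/
def IsWeaklyOMinimal (lt : L.Formula (Fin 2)) : Prop :=
  (∀ x : M, ¬ lt.Realize ![x, x]) ∧
  (∀ x y z : M, lt.Realize ![x, y] → lt.Realize ![y, z] → lt.Realize ![x, z]) ∧
  (∀ x y : M, x ≠ y → lt.Realize ![x, y] ∨ lt.Realize ![y, x]) ∧
  ∀ s : Set M, (Set.univ : Set M).Definable₁ L s →
    ∃ (n : ℕ) (C : Fin n → Set M),
      (∀ i, ∀ x ∈ C i, ∀ z ∈ C i, ∀ y, lt.Realize ![x, y] → lt.Realize ![y, z] → y ∈ C i) ∧
      s = ⋃ i, C i

/-- `M` is saturated (for types of elements over finite sets): every family of sets definable over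
a finite set with the finite intersection property has a common element. -/
def IsSaturated : Prop :=
  ∀ A : Set M, A.Finite → ∀ F : Set (Set M), (∀ s ∈ F, A.Definable₁ L s) →
    (∀ G ⊆ F, G.Finite → (⋂₀ G).Nonempty) → (⋂₀ F).Nonempty

variable {M}

/-- The realisations in `M` of the type of `a` over `A`. -/
def Realisations (A : Set M) (a : M) : Set M :=
  {x | ∀ s : Set M, A.Definable₁ L s → (a ∈ s ↔ x ∈ s)}

/-- The type of `c` over `A` implies its type over `B`: every `B`-definable set contains or avoids
some `A`-definable set around `c`. -/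
def Implies (A B : Set M) (c : M) : Prop :=
  ∀ s : Set M, B.Definable₁ L s → ∃ t : Set M, A.Definable₁ L t ∧ c ∈ t ∧ (t ⊆ s ∨ t ⊆ sᶜ)

/-- The restriction of `E` to `P` is an equivalence relation with convex classes. -/
def IsConvexEquivalence (lt : L.Formula (Fin 2)) (P : Set M) (E : M → M → Prop) : Prop :=
  (∀ x ∈ P, E x x) ∧ (∀ x ∈ P, ∀ y ∈ P, E x y → E y x) ∧
  (∀ x ∈ P, ∀ y ∈ P, ∀ w ∈ P, E x y → E y w → E x w) ∧
  ∀ x ∈ P, ∀ y ∈ P, ∀ w ∈ P, lt.Realize ![x, y] → lt.Realize ![y, w] → E x w → E x y

variable (M)

/-- `M` has an adic type: there are a finite set `A`, elements `a`, `c` such that the type of `c` over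
`A` implies its type over `A, a`, and an `A`-definable ternary relation `E`, such that the relations
`E z`, for the realisations `z` of the type of `c` over `A`, are equivalence relations with convex
classes on the realisations of the type of `a` over `A`, any two of them comparable by inclusion,
and not all equal. -/
def HasAdicType (lt : L.Formula (Fin 2)) : Prop :=
  ∃ (A : Set M) (a c : M) (E : M → M → M → Prop), A.Finite ∧ Implies L A (insert a A) c ∧
    A.Definable L {w : Fin 3 → M | E (w 0) (w 1) (w 2)} ∧
    (∀ z ∈ Realisations L A c, IsConvexEquivalence L lt (Realisations L A a) (E z)) ∧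
    (∀ z ∈ Realisations L A c, ∀ z' ∈ Realisations L A c,
      (∀ x ∈ Realisations L A a, ∀ y ∈ Realisations L A a, E z x y → E z' x y) ∨
      ∀ x ∈ Realisations L A a, ∀ y ∈ Realisations L A a, E z' x y → E z x y) ∧
    ∃ z ∈ Realisations L A c, ∃ z' ∈ Realisations L A c, ∃ x ∈ Realisations L A a,
      ∃ y ∈ Realisations L A a, E z x y ∧ ¬ E z' x y

end

/-- **Vaught's conjecture (perfect set form) for weakly o-minimal theories without adic types.** -/
theorem result (L : FirstOrder.Language.{0, 0}) (hc : Countable L.Symbols)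
    (hrel : ∀ n, IsEmpty (L.Functions n)) (T : L.Theory) (lt : L.Formula (Fin 2))
    (h : ∀ S : L.Structure ℕ, @FirstOrder.Language.Theory.Model L ℕ S T →
      @IsWeaklyOMinimal L ℕ S lt ∧ (@IsSaturated L ℕ S → ¬ @HasAdicType L ℕ S lt)) :
    (∃ g : ℕ → L.Structure ℕ, ∀ S : L.Structure ℕ,
        @FirstOrder.Language.Theory.Model L ℕ S T →
          ∃ n : ℕ, Nonempty (@FirstOrder.Language.Equiv L ℕ ℕ S (g n))) ∨
    (∃ f : (ℕ → Bool) → L.Structure ℕ,
        (∀ x : ℕ → Bool, @FirstOrder.Language.Theory.Model L ℕ (f x) T) ∧
        (∀ x y : ℕ → Bool,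
            Nonempty (@FirstOrder.Language.Equiv L ℕ ℕ (f x) (f y)) → x = y) ∧
        (∀ (n : ℕ) (R : L.Relations n) (a : Fin n → ℕ),
            IsClopen {x : ℕ → Bool | @FirstOrder.Language.Structure.RelMap L ℕ (f x) n R a})) := by
  have : ∀ n, IsEmpty (L.Functions n) := hrel
  have : ∀ n, Countable (L.Relations n) := fun n =>
    Function.Injective.countable (β := L.Symbols) (f := fun R => Sum.inr ⟨n, R⟩)
      (fun R R' hR => by simpa using hR)
  have key := WOM.thm_NAE L T lt (fun S hS => by
    obtain ⟨⟨h1, h2, h3, h4⟩, h5⟩ := h S hS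
    refine ⟨@WOM.WOMin.mk L ℕ S lt h1 h2 h3 h4, fun hsat => ?_⟩
    intro A P Q a c E hA hP hQ hac hE hcv hcp z hz z' hz' x hx y hy hxy
    by_contra hn
    subst hP
    subst hQ
    exact h5 hsat ⟨A, a, c, E, hA, hac, hE, hcv, hcp, z, hz, z', hz', x, hx, y, hy, hxy, hn⟩)
  rcases key with ⟨g, hg⟩ | ⟨f, hf1, hf2, hf3⟩
  · refine Or.inl ⟨g, fun S hS => ?_⟩
    obtain ⟨n, hn⟩ := hg S hS
    exact ⟨n, (Helper6.Str.nonempty_equiv_iff S (g n)).mpr hn⟩
  · exact Or.inr ⟨f, hf1,
      fun x y hxy => hf2 x y ((Helper6.Str.nonempty_equiv_iff _ _).mp hxy), hf3⟩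

end Pool.Agent.Results.MP_5df2c5_lc.WeaklyOMinimalNonAdic
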